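import Mathlib

namespace Pool.Agent.Results.MP_d2ef9c_co.ThreeSevenths

open SimpleGraph Finset

/-- The vertex set of the triangular grid `T_n`. -/
noncomputable def gridV (n : ℕ) : Finset (ℤ × ℤ) :=
  (Icc (0 : ℤ) n ×ˢ Icc (0 : ℤ) n).filter fun p => p.1 + p.2 ≤ n

/-- Adjacency of the infinite triangular grid; `T_n` is the subgraph induced on `gridV n`. -/
def tri : SimpleGraph (ℤ × ℤ) where
  Adj p q := (p.2 = q.2 ∧ |p.1 - q.1| = 1) ∨ (p.1 = q.1 ∧ |p.2 - q.2| = 1) ∨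
    (p.1 - q.1 = q.2 - p.2 ∧ |p.1 - q.1| = 1)
  symm := ⟨by
    rintro p q (⟨h1, h2⟩ | ⟨h1, h2⟩ | ⟨h1, h2⟩)
    · exact Or.inl ⟨h1.symm, by rwa [abs_sub_comm]⟩
    · exact Or.inr (Or.inl ⟨h1.symm, by rwa [abs_sub_comm]⟩)
    · exact Or.inr (Or.inr ⟨by omega, by rwa [abs_sub_comm]⟩)⟩
  loopless := ⟨by simp⟩

/-- `S` is an indeque set: every connected component of the induced subgraph is complete. -/
def Indeque (S : Finset (ℤ × ℤ)) : Prop :=
  ∀ u v : (S : Set (ℤ × ℤ)), (tri.induce (S : Set (ℤ × ℤ))).Reachable u v → u ≠ v →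
    tri.Adj u v

lemma adj_iff (p q : ℤ × ℤ) : tri.Adj p q ↔
    (p.2 = q.2 ∧ (p.1 = q.1 + 1 ∨ p.1 + 1 = q.1)) ∨ (p.1 = q.1 ∧ (p.2 = q.2 + 1 ∨ p.2 + 1 = q.2)) ∨
    (p.1 + p.2 = q.1 + q.2 ∧ (p.1 = q.1 + 1 ∨ p.1 + 1 = q.1)) := by
  simp only [tri, abs_eq (show (0 : ℤ) ≤ 1 by norm_num)]
  omega

def good (c : ℤ) (p : ℤ × ℤ) : Prop :=
  (p.1 + 3 * p.2 + c) % 7 = 0 ∨ (p.1 + 3 * p.2 + c) % 7 = 1 ∨ (p.1 + 3 * p.2 + c) % 7 = 3

instance (c : ℤ) : DecidablePred (good c) := fun p => by unfold good; infer_instance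

lemma trans (c : ℤ) (a b d : ℤ × ℤ) (ha : good c a) (hb : good c b) (hd : good c d)
    (h1 : tri.Adj a b) (h2 : tri.Adj b d) (hne : a ≠ d) : tri.Adj a d := by
  have hne' : ¬ (a.1 = d.1 ∧ a.2 = d.2) := fun h => hne (Prod.ext h.1 h.2)
  rw [adj_iff] at *
  unfold good at *
  omega

lemma indeque (c : ℤ) (T : Finset (ℤ × ℤ)) : Indeque (T.filter (good c)) := by
  rintro u v ⟨w⟩
  induction w with
  | nil => intro h; exact absurd rfl h
  | @cons a b d hab w ih =>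
    intro hne
    by_cases hbd : b = d
    · subst hbd
      exact hab
    · exact trans c a b d (mem_filter.1 a.2).2 (mem_filter.1 b.2).2 (mem_filter.1 d.2).2 hab
        (ih hbd) fun h => hne (Subtype.ext h)

theorem result :
    ∀ n : ℕ, ∃ S : Finset (ℤ × ℤ), S ⊆ gridV n ∧ Indeque S ∧ 3 * (gridV n).card ≤ 7 * S.card := by
  intro n
  have h1 : ∑ c : Fin 7, ((gridV n).filter (good (c.val : ℤ))).card = 3 * (gridV n).card := by
    simp only [card_filter]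
    rw [sum_comm, mul_comm, ← smul_eq_mul, ← sum_const]
    refine sum_congr rfl fun p _ => ?_
    rw [Fin.sum_univ_seven]
    unfold good
    have : ∀ r : ℤ, r % 7 = 0 ∨ r % 7 = 1 ∨ r % 7 = 2 ∨ r % 7 = 3 ∨ r % 7 = 4 ∨ r % 7 = 5 ∨
      r % 7 = 6 := fun r => by omega
    rcases this (p.1 + 3 * p.2) with h | h | h | h | h | h | h <;>
      simp [Int.add_emod (p.1 + 3 * p.2), h]
  by_contra hcon
  push Not at hcon
  have h2 : ∑ c : Fin 7, 7 * ((gridV n).filter (good (c.val : ℤ))).card <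
      ∑ _c : Fin 7, 3 * (gridV n).card :=
    sum_lt_sum_of_nonempty univ_nonempty fun c _ => hcon _ (filter_subset _ _) (indeque _ _)
  rw [← mul_sum, h1] at h2
  simp at h2

end Pool.Agent.Results.MP_d2ef9c_co.ThreeSevenths
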